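import Pool.Agent.Lib.MP_b5021c_nt.IfaceOC
import Pool.Agent.Lib.MP_b5021c_nt.KO.H40.K4w
import Pool.Agent.Lib.MP_b5021c_nt.KO.H67.L5a

/-!
# MP_b5021c_nt, all `θ`, K ODD, (O4): row OC_RAY

`{Z 0, Z 1, Z i}` is a face: functionals `mu 1`, `- mu (-1)` for `Z 0` and `- mu 0`, `mu 2` for `Z 1`
(length at least five), `mu 1`, `nu - c mu 0 + c mu 1` (length four with a killer).
-/

set_option linter.unusedSectionVars false

namespace Pool.Agent.B5.KO.H45

open scoped LaurentPolynomial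
open Polynomial
open Pool.Agent.B5.OC
open Pool.Agent.B5.KE
open Pool.Agent.B5.KO.H40 (fun3s K4f face_z2 mu_vals k4f_of face3 ray_dcY)
open Pool.Agent.B5.KO67 (psd ims_psd)

section

variable {P L : Type} [Fintype P] [DecidableEq P] [AddCommGroup L] [Module.Free ℤ L]
  [Module.Finite ℤ L] {phi : L →+ (P → ℤ)} {D : AO ℤ L} {eta : L → (RO ℤ)ˣ}

/-- The face of `Z 0`, `Z 1`, `Z i`, length at least five. -/
theorem fun3_ge {k : ℕ} {Z : ZMod (k + 3) → L} {mu : ZMod (k + 3) → L →+ ℤ} (hk : 2 ≤ k)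
    (h : Cyc phi D eta k Z mu) {i : ZMod (k + 3)} (h0 : i ≠ 0) (h1 : i ≠ 1) :
    ∃ lam : L →+ ℤ, lam (Z 0) = 0 ∧ lam (Z 1) = 0 ∧ lam (Z i) = 0 ∧
      ∀ T, Ray D T → T ≠ Z 0 → T ≠ Z 1 → T ≠ Z i → 0 < lam T := by
  have n1 : (1 : ZMod (k + 3)) ≠ 0 := KO67.one_nz
  have n2 : (2 : ZMod (k + 3)) ≠ 0 := KO67.two_nz
  have n3 : (3 : ZMod (k + 3)) ≠ 0 := KO.H40.three_ne (by omega)
  have n4 : (4 : ZMod (k + 3)) ≠ 0 := KO67.four_ne hk
  have rZ : ∀ i, Ray D (Z i) := fun i => (h.mtl i).r0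
  have mz : ∀ l m : ZMod (k + 3), m ≠ l + 1 → m ≠ l - 1 → mu l (Z m) = 0 := fun l m a1 a2 =>
    h.oth l (Z m) (rZ m) (fun e => a1 (h.inj e)) (fun e => a2 (h.inj e))
  obtain ⟨nuA, aX, aY, aQ, aT⟩ : ∃ nuA : L →+ ℤ, nuA (Z 0) < 0 ∧ nuA (Z 1) = 0 ∧
      nuA (Z i) = 0 ∧ ∀ T, Ray D T → T ≠ Z 0 → 0 ≤ nuA T := by
    by_cases h2 : i = 2
    · refine ⟨-mu (-1), ?_, ?_, ?_, ?_⟩
      · have e := h.nxt (-1)
        rw [neg_add_cancel] at e
        rw [AddMonoidHom.neg_apply, e]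
        norm_num
      · rw [AddMonoidHom.neg_apply, mz (-1) 1 (fun e => n1 (by linear_combination e))
          (fun e => n3 (by linear_combination e)), neg_zero]
      · rw [AddMonoidHom.neg_apply, h2, mz (-1) 2 (fun e => n2 (by linear_combination e))
          (fun e => n4 (by linear_combination e)), neg_zero]
      · intro T hT hT0
        rw [AddMonoidHom.neg_apply]
        by_cases e : T = Z (-1 - 1)
        · rw [e, h.prv]
          norm_num
        · rw [h.oth (-1) T hT (by rwa [neg_add_cancel]) e, neg_zero]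
    · refine ⟨mu 1, ?_, ?_, ?_, ?_⟩
      · have e := h.prv 1
        rw [sub_self] at e
        rw [e]
        norm_num
      · exact mz 1 1 (fun e => n1 (by linear_combination -e)) (fun e => n1 (by linear_combination e))
      · exact mz 1 i (fun e => h2 (by linear_combination e)) (fun e => h0 (by linear_combination e))
      · intro T hT hT0
        by_cases e : T = Z (1 + 1)
        · rw [e, h.nxt]
          norm_num
        · rw [h.oth 1 T hT e (by rwa [sub_self])]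
  obtain ⟨nuB, bY, bX, bQ, bT⟩ : ∃ nuB : L →+ ℤ, nuB (Z 1) < 0 ∧ nuB (Z 0) = 0 ∧
      nuB (Z i) = 0 ∧ ∀ T, Ray D T → T ≠ Z 1 → 0 ≤ nuB T := by
    by_cases h2 : i = -1
    · refine ⟨mu 2, ?_, ?_, ?_, ?_⟩
      · have e := h.prv 2
        rw [show (2 : ZMod (k + 3)) - 1 = 1 by ring] at e
        rw [e]
        norm_num
      · exact mz 2 0 (fun e => n3 (by linear_combination -e)) (fun e => n1 (by linear_combination -e))
      · rw [h2]
        exact mz 2 (-1) (fun e => n4 (by linear_combination -e))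
          (fun e => n2 (by linear_combination -e))
      · intro T hT hT1
        by_cases e : T = Z (2 + 1)
        · rw [e, h.nxt]
          norm_num
        · rw [h.oth 2 T hT e (by rwa [show (2 : ZMod (k + 3)) - 1 = 1 by ring])]
    · refine ⟨-mu 0, ?_, ?_, ?_, ?_⟩
      · have e := h.nxt 0
        rw [zero_add] at e
        rw [AddMonoidHom.neg_apply, e]
        norm_num
      · rw [AddMonoidHom.neg_apply, mz 0 0 (fun e => n1 (by linear_combination -e))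
          (fun e => n1 (by linear_combination e)), neg_zero]
      · rw [AddMonoidHom.neg_apply, mz 0 i (fun e => h1 (by linear_combination e))
          (fun e => h2 (by linear_combination e)), neg_zero]
      · intro T hT hT1
        rw [AddMonoidHom.neg_apply]
        by_cases e : T = Z (0 - 1)
        · rw [e, h.prv]
          norm_num
        · rw [h.oth 0 T hT (by rwa [zero_add]) e, neg_zero]
  exact fun3s (rZ 0) (rZ 1) (rZ i) (fun e => h0 (h.inj e).symm) (fun e => h1 (h.inj e).symm) aX aY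
    aQ aT bY bX bQ bT

/-- The face of `Z 0`, `Z 1`, `Z 3` for a 4-cycle with a killer. -/
theorem face_z3 {Z : ZMod (1 + 3) → L} {mu : ZMod (1 + 3) → L →+ ℤ}
    (h : Cyc phi D eta 1 Z mu) {nu : L →+ ℤ} (K : K4f D Z mu nu) :
    ∃ lam : L →+ ℤ, lam (Z 0) = 0 ∧ lam (Z 1) = 0 ∧ lam (Z 3) = 0 ∧
      ∀ T, Ray D T → T ≠ Z 0 → T ≠ Z 1 → T ≠ Z 3 → 0 < lam T := by
  obtain ⟨⟨a0, a1, a2, a3⟩, ⟨b0, b1, b2, b3⟩, ⟨c0, c1, c2, c3⟩, d0, d1, d2, d3⟩ := mu_vals h
  have rZ : ∀ i, Ray D (Z i) := fun i => (h.mtl i).r0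
  have hn := K.n0
  have key : ∀ T, Ray D T → (∀ i, T ≠ Z i) ∨ T = Z 0 ∨ T = Z 1 ∨ T = Z 2 ∨ T = Z 3 := by
    intro T _
    by_cases hTZ : ∀ i, T ≠ Z i
    · exact Or.inl hTZ
    · push Not at hTZ
      obtain ⟨i, rfl⟩ := hTZ
      fin_cases i
      · exact Or.inr (Or.inl rfl)
      · exact Or.inr (Or.inr (Or.inl rfl))
      · exact Or.inr (Or.inr (Or.inr (Or.inl rfl)))
      · exact Or.inr (Or.inr (Or.inr (Or.inr rfl)))
  refine fun3s (rZ 0) (rZ 1) (rZ 3) (fun e => absurd (h.inj e) (by decide))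
    (fun e => absurd (h.inj e) (by decide)) (nuA := mu 1)
    (nuB := nu - nu (Z 0) • mu 0 + nu (Z 0) • mu 1) ?_ ?_ ?_ ?_ ?_ ?_ ?_ ?_
  · rw [b0]
    norm_num
  · exact b1
  · exact b3
  · intro T hT hT0
    rcases key T hT with h1 | rfl | rfl | rfl | rfl
    · rw [h.oth 1 T hT (h1 _) (h1 _)]
    · exact absurd rfl hT0
    · rw [b1]
    · rw [b2]
      norm_num
    · rw [b3]
  · simp only [AddMonoidHom.add_apply, AddMonoidHom.sub_apply, AddMonoidHom.smul_apply,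
      smul_eq_mul, a1, b1, K.n1]
    omega
  · simp only [AddMonoidHom.add_apply, AddMonoidHom.sub_apply, AddMonoidHom.smul_apply,
      smul_eq_mul, a0, b0]
    omega
  · simp only [AddMonoidHom.add_apply, AddMonoidHom.sub_apply, AddMonoidHom.smul_apply,
      smul_eq_mul, a3, b3, K.n3]
    omega
  · intro T hT hT1
    simp only [AddMonoidHom.add_apply, AddMonoidHom.sub_apply, AddMonoidHom.smul_apply,
      smul_eq_mul]
    rcases key T hT with h1 | rfl | rfl | rfl | rfl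
    · rw [h.oth 1 T hT (h1 _) (h1 _), h.oth 0 T hT (h1 _) (h1 _), K.oth T hT h1]
      omega
    · rw [a0, b0]
      omega
    · exact absurd rfl hT1
    · rw [a2, b2, K.n2]
      omega
    · rw [a3, b3, K.n3]
      omega

end

/-- (OC_RAY) -/
theorem rayS (hRy : RaySpanS) (hE2 : E2S) (hFsp : FspS) (hRes : ResKS) (hFact : FactS)
    (hC0 : Coeff0S) (hE1 : E1S) (hMV : MVS) (hM1 : M1S) (hC4 : C4S) (hThin : ThinS) (hF1 : F1S)
    (hF3 : F3S) (hMin : MinS) (hB5a : B5aS) (hVco : VcoS) (hWW : WWfS) (hUA : UnitAS)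
    (hI1 : Inj1S) (hMco : McoS) : RayS := by
  intro P L _ _ _ _ _ phi D q f E a j eta C k Z mu W hor i h0 h1 Y u0 u1 x hx hne
  have h := W.cyc
  have fp := W.kb.ko.min.fp
  have hD := fp.dd
  have hj := W.kb.ko.j2
  have hrk := W.kb.ko.rk
  have h2 : 2 ≤ Module.finrank ℤ L := by omega
  have rZ : ∀ i, Ray D (Z i) := fun i => (h.mtl i).r0
  have d01 : ∀ p, phi (Z 0) p = 0 ∨ phi (Z 1) p = 0 :=
    h.dis 0 1 (fun e => KO67.one_nz (k := k) (by linear_combination -e))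
  have d0 : ∀ p, phi (Z 0) p = 0 ∨ phi (Z i) p = 0 := h.dis 0 i h0.symm
  have d1 : ∀ p, phi (Z 1) p = 0 ∨ phi (Z i) p = 0 := h.dis 1 i h1.symm
  obtain ⟨lam, l0, l1, li, lp⟩ : ∃ lam : L →+ ℤ, lam (Z 0) = 0 ∧ lam (Z 1) = 0 ∧
      lam (Z i) = 0 ∧ ∀ T, Ray D T → T ≠ Z 0 → T ≠ Z 1 → T ≠ Z i → 0 < lam T := by
    by_cases hk : 2 ≤ k
    · exact fun3_ge hk h h0 h1
    · have hk1 : k = 1 := by
        have := W.k1
        omega
      subst hk1
      obtain ⟨T, e, rT, hTZ, hV0, m, hm⟩ := hor.resolve_left (by norm_num)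
      obtain ⟨nu, K⟩ := k4f_of hRes hFact hC0 hE1 hMV hM1 hC4 hE2 hThin hF1 hF3 hMin hB5a hVco
        hWW hUA hI1 hMco W.kb.ko.min h2 h rT hTZ hV0 hm
      have key : ∀ i : ZMod (1 + 3), i ≠ 0 → i ≠ 1 → i = 2 ∨ i = 3 := by decide
      have hi := key i h0 h1
      rcases hi with rfl | rfl
      · exact face_z2 h K
      · exact face_z3 h K
  have hface := face3 hRy hE2 hD h2 (rZ 0) (rZ 1) (rZ i) d01 d0 d1 l0 l1 li lp
  obtain ⟨p, hp⟩ := exists_port hD (rZ i)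
  exact ⟨ray_dcY hD.bin d01 Y u0 u1 hx (rZ i).2.1 l0 l1 li hface hne,
    ims_psd hFsp fp Y (rZ 0).1 (rZ 1).1 (rZ i).1 d01 d0 d1 (iR := p) hp l0 l1 li hface hx⟩

end Pool.Agent.B5.KO.H45
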