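import Pool.Agent.Lib.MP_b5021c_nt.KO.H45.Vr5
import Pool.Agent.Lib.MP_b5021c_nt.KO.H68.Vr

/-!
# MP_b5021c_nt, all `θ`, K ODD, (O4), length at least five, row OC_VR complete
-/

namespace Pool.Agent.B5.KO.H45

open Pool.Agent.B5.OC

/-- Item 5 of OC_VR. -/
theorem vr5S (hFD : FDS) (hSm : SmallS) (hRF : RayFacS) (hE1 : E1S) (hE2 : E2S) (hMV : MVS)
    (hMco : McoS) (hRy : RaySpanS) (hVdd : VddS) (hRay : RayS) : OC68.Vr5 := by
  intro P L _ _ _ _ _ phi D q f E r a j eta C k Z mu W hk hA r' hr hc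
  exact vr5 hFD hSm hRF hE1 hE2 hMV hMco hRy hVdd hRay W hk hA r' hr hc

/-- Row OC_VR. -/
theorem vrS (hFD : FDS) (hSm : SmallS) (hRF : RayFacS) (hE1 : E1S) (hE2 : E2S) (hMV : MVS)
    (hMco : McoS) (hRy : RaySpanS) (hVdd : VddS) (hRay : RayS) (hBpx : BpxS) (hBxd : BxdS) :
    VrS :=
  OC68.vr hMco hVdd hRay hBpx hBxd
    (vr5S hFD hSm hRF hE1 hE2 hMV hMco hRy hVdd hRay)

end Pool.Agent.B5.KO.H45
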