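import Pool.Agent.Lib.MP_b5021c_nt.IfaceOC
import Pool.Agent.Lib.MP_b5021c_nt.KO.H40.K4w
import Pool.Agent.Lib.MP_b5021c_nt.KO.H96.Twn
import Pool.Agent.Lib.MP_b5021c_nt.KO.H67.L5a

/-!
# MP_b5021c_nt, all `θ`, K ODD, (O4), cycles of length `≥ 5`: item 5 of OC_VR

`V''` closed at `y_2 = -1/z` has the constant coefficient `- z (V - f - r')` of class `V(1)`: all
factors are small.  `Z 3` is a ray of the triple closing, so its coefficient `- r (1+z)² (1-z)` is a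
unit times the constant one.
-/

set_option linter.unusedSectionVars false

namespace Pool.Agent.B5.KO.H45

open scoped LaurentPolynomial
open Polynomial
open Pool.Agent.B5.KE
open Pool.Agent.B5.Nr.Sch
open Pool.Agent.B5.OC
open Pool.Agent.B5.KV67 (TT1 tA_val)
open Pool.Agent.B5.KO.H40 (tC_val port_zero)
open Pool.Agent.B5.KO67 (psd psd_apply)

section

variable {P L : Type} [Fintype P] [DecidableEq P] [AddCommGroup L] [Module.Free ℤ L]
  [Module.Finite ℤ L] {phi : L →+ (P → ℤ)} {D : AO ℤ L}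

/-- A small non-pure factor: the coefficient at its ray. -/
theorem spt_coeff {S : L} {i0 : P} {eta : (RO ℤ)ˣ} {h : co phi i0 S = 1} {c : RO ℤ} {n : ℕ}
    {G : Fin n → AO ℤ (Ker (co phi i0))} (fd : FD phi D S i0 eta h c n G) {l : Fin n}
    {b : Ker (co phi i0)} {j : P} {e : (RO ℤ)ˣ} (sp : Spt phi S i0 G l b j e) :
    (cl (co phi i0) S h eta D).coeff b =
      -((e⁻¹ : (RO ℤ)ˣ) : RO ℤ) * (cl (co phi i0) S h eta D).coeff 0 := by
  classical
  obtain ⟨O, hO⟩ : ∃ O, O = ∏ i ∈ Finset.univ.erase l, G i := ⟨_, rfl⟩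
  have hDO : cl (co phi i0) S h eta D = cst c * (cst ((G l).coeff 0) *
      ((1 - AddMonoidAlgebra.single b ((e⁻¹ : (RO ℤ)ˣ) : RO ℤ)) * O)) := by
    rw [fd.eq, ← Finset.mul_prod_erase Finset.univ G (Finset.mem_univ l), ← hO]
    conv_lhs => rw [sp.eq]
    rw [mul_assoc (cst _) _ O]
  have hcoef : ∀ x, (cl (co phi i0) S h eta D).coeff x = c * ((G l).coeff 0 *
      (O.coeff x - ((e⁻¹ : (RO ℤ)ˣ) : RO ℤ) * O.coeff (-b + x))) := by
    intro x
    rw [hDO, H75.T2C.cst_mul_coeff, H75.T2C.cst_mul_coeff, sub_mul, one_mul,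
      AddMonoidAlgebra.coeff_sub, Finsupp.sub_apply, AddMonoidAlgebra.coeff_single_mul_apply]
  have hOz : ∀ x : Ker (co phi i0), phi (x : L) j ≠ 0 → O.coeff x = 0 := by
    intro x hx
    by_contra h2
    apply hx
    have h3 := H57.Dus.supp_prod_ker (Finset.univ.erase l) G (co (phK phi (co phi i0)) j)
      (fun i' hi' y hy => sp.other i' (Finset.ne_of_mem_erase hi') y hy) x (by
        rw [← hO]
        exact h2)
    exact h3
  rw [hcoef b, hcoef 0, neg_add_cancel, add_zero, hOz b (by rw [sp.bj]; exact one_ne_zero),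
    hOz (-b) (by
      change phi (-(b : L)) j ≠ 0
      rw [map_neg, Pi.neg_apply, sp.bj]
      norm_num)]
  ring

/-- The functional on a sum of rays. -/
theorem clos4 {L : Type} [AddCommGroup L] (Rs : Set L) (X Y Q W : L) (lam : L →+ ℤ)
    (hX : lam X = 0) (hY : lam Y = 0) (hQ : lam Q = 0) (hW : lam W = 0)
    (hT : ∀ T ∈ Rs, T ≠ X → T ≠ Y → T ≠ Q → T ≠ W → 0 < lam T) (x : L)
    (hx : x ∈ AddSubmonoid.closure Rs) :
    0 ≤ lam x ∧ (lam x = 0 → ∃ a b c d : ℕ, x = a • X + b • Y + c • Q + d • W) := by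
  induction hx using AddSubmonoid.closure_induction with
  | mem y hy =>
    by_cases h1 : y = X
    · subst h1
      exact ⟨hX.ge, fun _ => ⟨1, 0, 0, 0, by simp⟩⟩
    by_cases h2 : y = Y
    · subst h2
      exact ⟨hY.ge, fun _ => ⟨0, 1, 0, 0, by simp⟩⟩
    by_cases h3 : y = Q
    · subst h3
      exact ⟨hQ.ge, fun _ => ⟨0, 0, 1, 0, by simp⟩⟩
    by_cases h4 : y = W
    · subst h4
      exact ⟨hW.ge, fun _ => ⟨0, 0, 0, 1, by simp⟩⟩
    have h5 := hT y hy h1 h2 h3 h4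
    exact ⟨h5.le, fun h => absurd h h5.ne'⟩
  | zero => exact ⟨(map_zero lam).ge, fun _ => ⟨0, 0, 0, 0, by simp⟩⟩
  | add y z _ _ hy hz =>
    rw [map_add]
    refine ⟨add_nonneg hy.1 hz.1, fun h => ?_⟩
    have h1 := hy.1
    have h2 := hz.1
    obtain ⟨a, b, c, d, habc⟩ := hy.2 (by omega)
    obtain ⟨a', b', c', d', habc'⟩ := hz.2 (by omega)
    refine ⟨a + a', b + b', c + c', d + d', ?_⟩
    rw [habc, habc', add_nsmul, add_nsmul, add_nsmul, add_nsmul]
    abel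

/-- The exponents on a face spanned by four disjoint rays. -/
theorem face4 (hRS : RaySpanS) (hE : E2S) (hD : DD phi D) (h2 : 2 ≤ Module.finrank ℤ L)
    {X Y Q W : L} (rX : Ray D X) (rY : Ray D Y) (rQ : Ray D Q) (rW : Ray D W)
    (dXY : ∀ i, phi X i = 0 ∨ phi Y i = 0) (dXQ : ∀ i, phi X i = 0 ∨ phi Q i = 0)
    (dXW : ∀ i, phi X i = 0 ∨ phi W i = 0) (dYQ : ∀ i, phi Y i = 0 ∨ phi Q i = 0)
    (dYW : ∀ i, phi Y i = 0 ∨ phi W i = 0) (dQW : ∀ i, phi Q i = 0 ∨ phi W i = 0)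
    {lam : L →+ ℤ} (hX : lam X = 0) (hY : lam Y = 0) (hQ : lam Q = 0) (hW : lam W = 0)
    (hT : ∀ T, Ray D T → T ≠ X → T ≠ Y → T ≠ Q → T ≠ W → 0 < lam T) :
    ∀ x ∈ supp D, 0 ≤ lam x ∧
      (lam x = 0 → ∃ a b c d : ℤ, (d = 0 ∨ d = 1) ∧ x = a • X + b • Y + c • Q + d • W) := by
  intro x hx
  by_cases hx0 : x = 0
  · subst hx0
    exact ⟨(map_zero lam).ge, fun _ => ⟨0, 0, 0, 0, Or.inl rfl, by simp⟩⟩
  obtain ⟨-, hthin, -⟩ := hE ℤ P L phi D hD h2
  obtain ⟨lam0, hlam0, -⟩ := hD.st.2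
  obtain ⟨n, hn, hmem⟩ := (hRS ℤ L D ⟨lam0, hlam0⟩ hthin).1 x hx hx0
  obtain ⟨h5, h6⟩ := clos4 {b | Ray D b} X Y Q W lam hX hY hQ hW hT (n • x) hmem
  rw [map_nsmul, nsmul_eq_mul] at h5 h6
  have hnz : (0 : ℤ) < (n : ℤ) := by exact_mod_cast hn
  refine ⟨?_, fun h => ?_⟩
  · by_contra hneg
    push Not at hneg
    have := mul_neg_of_pos_of_neg hnz hneg
    omega
  obtain ⟨a, b, c, d, habc⟩ := h6 (by rw [h, mul_zero])
  obtain ⟨iX, hiX⟩ := exists_port hD rX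
  obtain ⟨iY, hiY⟩ := exists_port hD rY
  obtain ⟨iQ, hiQ⟩ := exists_port hD rQ
  obtain ⟨iW, hiW⟩ := exists_port hD rW
  have pX : phi X iX = 1 := hiX
  have pY : phi Y iY = 1 := hiY
  have pQ : phi Q iQ = 1 := hiQ
  have pW : phi W iW = 1 := hiW
  have dYX : ∀ i, phi Y i = 0 ∨ phi X i = 0 := fun i => (dXY i).symm
  have dQX : ∀ i, phi Q i = 0 ∨ phi X i = 0 := fun i => (dXQ i).symm
  have dWX : ∀ i, phi W i = 0 ∨ phi X i = 0 := fun i => (dXW i).symm
  have dQY : ∀ i, phi Q i = 0 ∨ phi Y i = 0 := fun i => (dYQ i).symm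
  have dWY : ∀ i, phi W i = 0 ∨ phi Y i = 0 := fun i => (dYW i).symm
  have dWQ : ∀ i, phi W i = 0 ∨ phi Q i = 0 := fun i => (dQW i).symm
  have key : ∀ i, (n : ℤ) * phi x i = a * phi X i + b * phi Y i + c * phi Q i + d * phi W i := by
    intro i
    have h9 := congrFun (congrArg phi habc) i
    simp only [map_nsmul, map_add, Pi.smul_apply, Pi.add_apply, nsmul_eq_mul] at h9
    exact h9
  have e1 := key iX
  rw [pX, port_zero dXY pX, port_zero dXQ pX, port_zero dXW pX, mul_one, mul_zero, mul_zero,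
    mul_zero, add_zero, add_zero, add_zero] at e1
  have e2 := key iY
  rw [pY, port_zero dYX pY, port_zero dYQ pY, port_zero dYW pY, mul_one, mul_zero, mul_zero,
    mul_zero, zero_add, add_zero, add_zero] at e2
  have e3 := key iQ
  rw [pQ, port_zero dQX pQ, port_zero dQY pQ, port_zero dQW pQ, mul_one, mul_zero, mul_zero,
    mul_zero, zero_add, zero_add, add_zero] at e3
  have e4 := key iW
  rw [pW, port_zero dWX pW, port_zero dWY pW, port_zero dWQ pW, mul_one, mul_zero, mul_zero,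
    mul_zero, zero_add, zero_add, zero_add] at e4
  refine ⟨phi x iX, phi x iY, phi x iQ, phi x iW, hD.bin x hx iW, ?_⟩
  have h9 : (n : ℤ) • (x - (phi x iX • X + phi x iY • Y + phi x iQ • Q + phi x iW • W)) = 0 := by
    rw [smul_sub, natCast_zsmul, habc, smul_add, smul_add, smul_add, smul_smul, smul_smul,
      smul_smul, smul_smul, e1, e2, e3, e4, natCast_zsmul, natCast_zsmul, natCast_zsmul,
      natCast_zsmul, sub_self]
  rcases smul_eq_zero.mp h9 with h10 | h10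
  · exact absurd h10 hnz.ne'
  · exact sub_eq_zero.mp h10

/-- A ray of a triple closing, from a face spanned by four rays. -/
theorem ray_tri (hb : ∀ a ∈ supp D, Bin phi a) {S S1 S2 X : L}
    (dis : ∀ i, phi S i = 0 ∨ phi S1 i = 0) (Y : Dp phi S S1) (u0 u1 e2 : (RO ℤ)ˣ)
    (hbG : ∀ b ∈ supp (dc Y u0 u1 D), Bin (psd Y) b)
    {x2 : Ker Y.k1} (hx2 : ((x2 : Ker (co phi Y.i0)) : L) = S2) {i2 : P}
    (h2 : co (psd Y) i2 x2 = 1) {y : Ker (co (psd Y) i2)}
    (hy : (((y : Ker Y.k1) : Ker (co phi Y.i0)) : L) = X) (hXne : X ≠ 0) {lam : L →+ ℤ}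
    (lS : lam S = 0) (lS1 : lam S1 = 0) (lS2 : lam S2 = 0) (lX : lam X = 0)
    (hl : ∀ z ∈ supp D, 0 ≤ lam z ∧
      (lam z = 0 → ∃ a b c d : ℤ, (d = 0 ∨ d = 1) ∧ z = a • S + b • S1 + c • S2 + d • X))
    (hc : (cl (co (psd Y) i2) x2 h2 e2 (dc Y u0 u1 D)).coeff y ≠ 0) :
    Ray (cl (co (psd Y) i2) x2 h2 e2 (dc Y u0 u1 D)) y := by
  have q0 : phi S Y.i0 = 1 := Y.h0
  have q1 : phi S1 Y.i0 = 0 := port_zero dis q0
  have r1 : phi S1 Y.i1 = 1 := by
    have h1 := Y.hk Y.T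
    rw [Y.h1, Y.eT] at h1
    exact h1.symm
  have r0 : phi S Y.i1 = 0 := (dis Y.i1).resolve_right (by omega)
  have k0 : ∀ b : Ker Y.k1, phi ((b : Ker (co phi Y.i0)) : L) Y.i0 = 0 :=
    fun b => (b : Ker (co phi Y.i0)).2
  have k1 : ∀ b : Ker Y.k1, phi ((b : Ker (co phi Y.i0)) : L) Y.i1 = 0 := by
    intro b
    have h4 := b.2
    rw [mem_Ker, Y.hk] at h4
    exact h4
  have hcond : phi S i2 = 0 ∧ phi S1 i2 = 0 := by
    by_contra hne
    have h3 : psd Y x2 i2 = 1 := h2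
    rw [psd_apply, if_neg hne] at h3
    exact zero_ne_one h3
  have s2 : phi S2 i2 = 1 := by
    have h3 : psd Y x2 i2 = 1 := h2
    rw [psd_apply, if_pos hcond, hx2] at h3
    exact h3
  have k2 : ∀ b : Ker (co (psd Y) i2), phi (((b : Ker Y.k1) : Ker (co phi Y.i0)) : L) i2 = 0 := by
    intro b
    have h3 : psd Y (b : Ker Y.k1) i2 = 0 := b.2
    rw [psd_apply, if_pos hcond] at h3
    exact h3
  refine ⟨hc, ?_, ((lam.comp (incl _)).comp (incl _)).comp (incl _), ?_, ?_⟩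
  · intro h
    apply hXne
    rw [← hy, h]
    rfl
  · change lam (((y : Ker Y.k1) : Ker (co phi Y.i0)) : L) = 0
    rw [hy, lX]
  · intro b hbs hb0 hby
    change 0 < lam (((b : Ker Y.k1) : Ker (co phi Y.i0)) : L)
    have h3 : (cl (co (psd Y) i2) x2 h2 e2 (dc Y u0 u1 D)).coeff b ≠ 0 := hbs
    rw [H47.cl_coeff_bin (co (psd Y) i2) x2 h2 e2 (dc Y u0 u1 D)
      (fun b hb' => hbG b hb' i2)] at h3
    obtain ⟨B, hB⟩ : ∃ B : L, B = (((b : Ker Y.k1) : Ker (co phi Y.i0)) : L) := ⟨_, rfl⟩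
    obtain ⟨ga, hga⟩ : ∃ ga : ℤ, csm D S S1 u0 u1 (B + ga • S2) ≠ 0 := by
      by_contra hcon
      push Not at hcon
      apply h3
      rw [H40.dc_csm hb dis, H40.dc_csm hb dis]
      have g0 := hcon 0
      have g1 := hcon 1
      rw [zero_smul, add_zero] at g0
      rw [one_smul] at g1
      have e5 : ((((b : Ker Y.k1) + x2 : Ker Y.k1) : Ker (co phi Y.i0)) : L) = B + S2 := by
        rw [hB, ← hx2]
        rfl
      rw [e5, ← hB, g0, g1, mul_zero, add_zero]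
    obtain ⟨al, be, hz⟩ : ∃ al be : ℤ, D.coeff (B + ga • S2 + al • S + be • S1) ≠ 0 := by
      by_contra hcon
      push Not at hcon
      apply hga
      unfold csm
      have q1 := hcon 0 0
      have q2 := hcon 1 0
      have q3 := hcon 0 1
      have q4 := hcon 1 1
      simp only [zero_smul, one_smul, add_zero] at q1 q2 q3 q4
      rw [q1, q2, q3, q4]
      ring
    rw [← hB]
    have b0 : phi B Y.i0 = 0 := by rw [hB]; exact k0 _
    have b1 : phi B Y.i1 = 0 := by rw [hB]; exact k1 _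
    have b2 : phi B i2 = 0 := by rw [hB]; exact k2 _
    have X0 : phi X Y.i0 = 0 := by rw [← hy]; exact k0 _
    have X1 : phi X Y.i1 = 0 := by rw [← hy]; exact k1 _
    have X2 : phi X i2 = 0 := by rw [← hy]; exact k2 _
    have t0 : phi S2 Y.i0 = 0 := by rw [← hx2]; exact k0 _
    have t1 : phi S2 Y.i1 = 0 := by rw [← hx2]; exact k1 _
    obtain ⟨h5, h6⟩ := hl _ hz
    have h7 : lam (B + ga • S2 + al • S + be • S1) = lam B := by
      rw [map_add, map_add, map_add, map_zsmul, map_zsmul, map_zsmul, lS, lS1, lS2, smul_zero,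
        smul_zero, smul_zero, add_zero, add_zero, add_zero]
    rw [h7] at h5 h6
    by_contra hneg
    obtain ⟨a', b', c', d', hd, habc⟩ := h6 (by omega)
    have hi0 := congrFun (congrArg phi habc) Y.i0
    have hi1 := congrFun (congrArg phi habc) Y.i1
    have hi2 := congrFun (congrArg phi habc) i2
    simp only [map_add, map_zsmul, Pi.add_apply, Pi.smul_apply, smul_eq_mul, b0, b1, b2, q0, q1,
      r0, r1, X0, X1, X2, t0, t1, s2, hcond.1, hcond.2, mul_zero, mul_one, add_zero,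
      zero_add] at hi0 hi1 hi2
    rw [hi0, hi1, hi2] at habc
    have hBX : B = d' • X := by
      have h8 : B + c' • S2 + a' • S + b' • S1 = d' • X + c' • S2 + a' • S + b' • S1 := by
        rw [habc]
        abel
      exact add_right_cancel (add_right_cancel (add_right_cancel h8))
    rcases hd with h8 | h8
    · apply hb0
      apply Subtype.ext
      apply Subtype.ext
      apply Subtype.ext
      change (((b : Ker Y.k1) : Ker (co phi Y.i0)) : L) = 0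
      rw [← hB, hBX, h8, zero_smul]
    · apply hby
      apply Subtype.ext
      apply Subtype.ext
      apply Subtype.ext
      rw [← hB, hBX, h8, one_smul, hy]

/-- `V - F` is zero-free in the open disc. -/
theorem v_one (hE2 : E2S) {G : AO ℤ L} {N : ℝ} (hD : DD phi G) (h2 : 2 ≤ Module.finrank ℤ L)
    (hcv : ClassV N (G.coeff 0)) {S : L} (hS : Ray G S) {V F : ℤ[X]} {w : (RO ℤ)ˣ}
    (hV : G.coeff 0 = -toLaurent (X * V)) (hF : (w : RO ℤ) * G.coeff S = toLaurent F)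
    (h0 : V.coeff 0 ≠ 0) (h1 : (V - F).coeff 0 = 1) :
    ∀ z : ℂ, ‖z‖ < 1 → (aeval z (V - F) : ℂ) ≠ 0 := by
  obtain ⟨ez, -, -, -, -, eray⟩ := hE2 ℤ P L phi G hD h2
  have hVz : ∀ z : ℂ, ‖z‖ ≤ 1 → (aeval z V : ℂ) ≠ 0 := by
    intro z hz h3
    rcases lt_or_eq_of_le hz with h4 | h4
    · obtain ⟨hN, n0, g0, hg0, hg0', hz0⟩ := hcv
      have h5 : g0.coeff 0 ≠ 0 := by
        intro h6
        rw [h6, map_zero, norm_zero] at hg0'
        linarith
      obtain ⟨-, h6⟩ := H56.nf_unique n0 1 g0 (-V) h5 (by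
        rw [coeff_neg]
        exact neg_ne_zero.mpr h0) (by
        rw [← hg0, hV, map_mul, toLaurent_X, map_neg]
        ring)
      apply hz0 z h4
      rw [ev_map, h6, map_neg, h3, neg_zero]
    · obtain ⟨zc, rfl⟩ := circle_of z h4
      apply ez zc
      rw [hV, map_neg, evR_poly, map_mul, h3, mul_zero, neg_zero]
  have hle : ∀ z : ℂ, ‖z‖ = 1 → ‖(aeval z F : ℂ)‖ ≤ ‖(aeval z V : ℂ)‖ := by
    intro z hz
    obtain ⟨zc, rfl⟩ := circle_of z hz
    have h3 := (eray S hS).1 zc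
    have h4 : ‖evR zc (G.coeff 0)‖ = ‖(aeval (zc : ℂ) V : ℂ)‖ := by
      rw [hV, map_neg, norm_neg, evR_poly, map_mul, aeval_X, norm_mul, hz, one_mul]
    rw [← evR_poly, ← hF, map_mul, norm_mul, C4C.norm_evR_unit zc w.isUnit, one_mul, ← h4]
    exact h3
  have hsp : SP (F.map (Int.castRingHom ℝ)) (V.map (Int.castRingHom ℝ)) := by
    apply SP.of_circle
    · intro z hz
      rw [aeval_map_real]
      exact hVz z hz
    · intro z hz
      rw [aeval_map_real, aeval_map_real]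
      exact hle z hz
  intro z hz hz0
  have h3 : (aeval z (F.map (Int.castRingHom ℝ)) : ℂ) =
      aeval z (V.map (Int.castRingHom ℝ)) := by
    rw [aeval_map_real, aeval_map_real]
    rw [map_sub, sub_eq_zero] at hz0
    exact hz0.symm
  have h4 := congrArg (fun r : ℝ[X] => r.coeff 0) (sp_eq hsp hz h3)
  simp only [coeff_map] at h4
  have h5 : F.coeff 0 = V.coeff 0 := by
    have h6 : ((F.coeff 0 : ℤ) : ℝ) = ((V.coeff 0 : ℤ) : ℝ) := h4
    exact_mod_cast h6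
  rw [coeff_sub, h5, sub_self] at h1
  exact zero_ne_one h1

variable {q f E : ℤ[X]} {a : ℝ} {j : ℕ} {eta : L → (RO ℤ)ˣ} {C : Set L} {k : ℕ}
  {Z : ZMod (k + 3) → L} {mu : ZMod (k + 3) → L →+ ℤ}

theorem muZ (h : Cyc phi D eta k Z mu) (i m : ZMod (k + 3)) (h1 : m ≠ i + 1) (h2 : m ≠ i - 1) :
    mu i (Z m) = 0 :=
  h.oth i (Z m) (h.mtl m).r0 (fun e => h1 (h.inj e)) (fun e => h2 (h.inj e))

/-- `{Z 0, Z 1, Z 2, Z 3}` is a face. -/
theorem fun_z3 (hk : 2 ≤ k) (h : Cyc phi D eta k Z mu) :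
    ∃ lam : L →+ ℤ, lam (Z 0) = 0 ∧ lam (Z 1) = 0 ∧ lam (Z 2) = 0 ∧ lam (Z 3) = 0 ∧
      ∀ T, Ray D T → T ≠ Z 0 → T ≠ Z 1 → T ≠ Z 2 → T ≠ Z 3 → 0 < lam T := by
  have n1 : (1 : ZMod (k + 3)) ≠ 0 := KO67.one_nz
  have n2 : (2 : ZMod (k + 3)) ≠ 0 := KO67.two_nz
  have n3 : (3 : ZMod (k + 3)) ≠ 0 := KO.H40.three_ne (by omega)
  have n4 : (4 : ZMod (k + 3)) ≠ 0 := KO67.four_ne hk
  obtain ⟨-, -, la, la3, hla⟩ := (h.mtl 3).r0
  have p0 : 0 < la (Z 0) := hla _ (h.mtl 0).r0.1 (h.mtl 0).r0.2.1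
    (fun e => n3 (by linear_combination -(h.inj e)))
  have p1 : 0 < la (Z 1) := hla _ (h.mtl 1).r0.1 (h.mtl 1).r0.2.1
    (fun e => n2 (by linear_combination -(h.inj e)))
  have p2 : 0 < la (Z 2) := hla _ (h.mtl 2).r0.1 (h.mtl 2).r0.2.1
    (fun e => n1 (by linear_combination -(h.inj e)))
  have a0 : mu 1 (Z 0) = -1 := by
    have := h.prv 1
    rwa [sub_self] at this
  have a1 : mu 1 (Z 1) = 0 := muZ h 1 1 (fun e => n1 (by linear_combination -e))
    (fun e => n1 (by linear_combination e))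
  have a2 : mu 1 (Z 2) = 1 := by
    have := h.nxt 1
    rwa [one_add_one_eq_two] at this
  have a3 : mu 1 (Z 3) = 0 := muZ h 1 3 (fun e => n1 (by linear_combination e))
    (fun e => n3 (by linear_combination e))
  have b0 : mu 2 (Z 0) = 0 := muZ h 2 0 (fun e => n3 (by linear_combination -e))
    (fun e => n1 (by linear_combination -e))
  have b1 : mu 2 (Z 1) = -1 := by
    have := h.prv 2
    rwa [show (2 : ZMod (k + 3)) - 1 = 1 by ring] at this
  have b2 : mu 2 (Z 2) = 0 := muZ h 2 2 (fun e => n1 (by linear_combination -e))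
    (fun e => n1 (by linear_combination e))
  have b3 : mu 2 (Z 3) = 1 := by
    have := h.nxt 2
    rwa [show (2 : ZMod (k + 3)) + 1 = 3 by ring] at this
  have c0 : mu 3 (Z 0) = 0 := muZ h 3 0 (fun e => n4 (by linear_combination -e))
    (fun e => n2 (by linear_combination -e))
  have c1 : mu 3 (Z 1) = 0 := muZ h 3 1 (fun e => n3 (by linear_combination -e))
    (fun e => n1 (by linear_combination -e))
  have c2 : mu 3 (Z 2) = -1 := by
    have := h.prv 3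
    rwa [show (3 : ZMod (k + 3)) - 1 = 2 by ring] at this
  have c3 : mu 3 (Z 3) = 0 := muZ h 3 3 (fun e => n1 (by linear_combination -e))
    (fun e => n1 (by linear_combination e))
  have d0 : 0 ≤ mu 4 (Z 0) := by
    by_cases he : (0 : ZMod (k + 3)) = 4 + 1
    · rw [he, h.nxt]
      exact zero_le_one
    · rw [muZ h 4 0 he (fun e => n3 (by linear_combination -e))]
  have d1 : mu 4 (Z 1) = 0 := muZ h 4 1 (fun e => n4 (by linear_combination -e))
    (fun e => n2 (by linear_combination -e))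
  have d2 : mu 4 (Z 2) = 0 := muZ h 4 2 (fun e => n3 (by linear_combination -e))
    (fun e => n1 (by linear_combination -e))
  have d3 : mu 4 (Z 3) = -1 := by
    have := h.prv 4
    rwa [show (4 : ZMod (k + 3)) - 1 = 3 by ring] at this
  obtain ⟨t, ht⟩ : ∃ t, t = mu 4 (Z 0) := ⟨_, rfl⟩
  rw [← ht] at d0
  refine ⟨la + (la (Z 0) + t * la (Z 1)) • mu 1 + la (Z 1) • mu 2 +
    (la (Z 2) + la (Z 0) + t * la (Z 1)) • mu 3 + la (Z 1) • mu 4, ?_, ?_, ?_, ?_, ?_⟩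
  · simp only [AddMonoidHom.add_apply, AddMonoidHom.smul_apply, smul_eq_mul, a0, b0, c0, ← ht]
    ring
  · simp only [AddMonoidHom.add_apply, AddMonoidHom.smul_apply, smul_eq_mul, a1, b1, c1, d1]
    ring
  · simp only [AddMonoidHom.add_apply, AddMonoidHom.smul_apply, smul_eq_mul, a2, b2, c2, d2]
    ring
  · simp only [AddMonoidHom.add_apply, AddMonoidHom.smul_apply, smul_eq_mul, a3, b3, c3, d3, la3]
    ring
  · intro T hT t0 t1 t2 t3
    have e1 : mu 1 T = 0 := h.oth 1 T hT (by rwa [one_add_one_eq_two]) (by rwa [sub_self])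
    have e2 : mu 2 T = 0 := h.oth 2 T hT (by rwa [show (2 : ZMod (k + 3)) + 1 = 3 by ring])
      (by rwa [show (2 : ZMod (k + 3)) - 1 = 1 by ring])
    have e3 : 0 ≤ mu 3 T := by
      by_cases he : T = Z (3 + 1)
      · rw [he, h.nxt]
        exact zero_le_one
      · rw [h.oth 3 T hT he (by rwa [show (3 : ZMod (k + 3)) - 1 = 2 by ring])]
    have e4 : 0 ≤ mu 4 T := by
      by_cases he : T = Z (4 + 1)
      · rw [he, h.nxt]
        exact zero_le_one
      · rw [h.oth 4 T hT he (by rwa [show (4 : ZMod (k + 3)) - 1 = 3 by ring])]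
    have e5 : 0 < la T := hla T hT.1 hT.2.1 t3
    simp only [AddMonoidHom.add_apply, AddMonoidHom.smul_apply, smul_eq_mul, e1, e2, mul_zero,
      add_zero]
    have e6 : 0 ≤ (la (Z 2) + la (Z 0) + t * la (Z 1)) * mu 3 T :=
      mul_nonneg (by have := mul_nonneg d0 p1.le; omega) e3
    have e7 : 0 ≤ la (Z 1) * mu 4 T := mul_nonneg p1.le e4
    omega

/-- The classes of `0`, `Z 2`, `Z 3`, `Z 3 + Z 2` in `V''`. -/
theorem csm_vals (W : Oc phi D q f E a j eta C k Z mu) {r : ℤ[X]}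
    (hA : Ar4 D eta Z (toLaurent (X * f)) (toLaurent (X ^ 2 * r)) 0) :
    csm D (Z 0) (Z 1) (eta (Z 0) * tA) (eta (Z 1) * tC) 0 =
      -toLaurent (X * (E - (1 + X) * f)) ∧
    (eta (Z 2) : RO ℤ) * csm D (Z 0) (Z 1) (eta (Z 0) * tA) (eta (Z 1) * tC) (Z 2) =
      -toLaurent (X * (r + X * f)) ∧
    (eta (Z 3) : RO ℤ) * csm D (Z 0) (Z 1) (eta (Z 0) * tA) (eta (Z 1) * tC) (Z 3) =
      toLaurent (X * (f - (1 - X - X ^ 2) * r)) ∧
    (eta (Z 3) : RO ℤ) * ((eta (Z 2) : RO ℤ) *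
      csm D (Z 0) (Z 1) (eta (Z 0) * tA) (eta (Z 1) * tC) (Z 3 + Z 2)) =
      toLaurent (X * (r + X * f)) := by
  obtain ⟨⟨s01, s12, s02, s012⟩, ⟨-, s23, s13, s123⟩, s03, s013, s023, s0123⟩ := hA
  have x2 : (1 + 1 : ZMod (k + 3)) = 2 := one_add_one_eq_two
  have x3 : (1 + 2 : ZMod (k + 3)) = 3 := by ring
  simp only [zero_add, x2, x3] at s01 s12 s02 s012 s23 s13 s123 s03 s013 s023 s0123
  have hq : (toLaurent q : RO ℤ) = toLaurent f - LaurentPolynomial.T 1 * toLaurent E := by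
    have h1 : q = f - X * E := by rw [← W.eE]; ring
    rw [h1, map_sub, map_mul, toLaurent_X]
  have z0 := W.co 0
  have z1 := W.co 1
  have z2 := W.co 2
  have z3 := W.co 3
  have hD0 := W.kb.ko.D0
  simp only [map_mul, map_pow, toLaurent_X] at s01 s12 s02 s012 s23 s13 s123 s03 s013 s023 s0123
  simp only [map_mul, toLaurent_X] at z0 z1 z2 z3
  have c20 : Z 2 + Z 0 = Z 0 + Z 2 := add_comm _ _
  have c21 : Z 2 + Z 1 = Z 1 + Z 2 := add_comm _ _
  have c201 : Z 0 + Z 2 + Z 1 = Z 0 + Z 1 + Z 2 := add_right_comm _ _ _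
  have c30 : Z 3 + Z 0 = Z 0 + Z 3 := add_comm _ _
  have c31 : Z 3 + Z 1 = Z 1 + Z 3 := add_comm _ _
  have c301 : Z 0 + Z 3 + Z 1 = Z 0 + Z 1 + Z 3 := add_right_comm _ _ _
  have c32 : Z 3 + Z 2 = Z 2 + Z 3 := add_comm _ _
  have c320 : Z 2 + Z 3 + Z 0 = Z 0 + Z 2 + Z 3 := by abel
  have c321 : Z 2 + Z 3 + Z 1 = Z 1 + Z 2 + Z 3 := by abel
  have c3201 : Z 0 + Z 2 + Z 3 + Z 1 = Z 0 + Z 1 + Z 2 + Z 3 := by abel
  have tt : (LaurentPolynomial.T (-1) : RO ℤ) * LaurentPolynomial.T 1 = 1 := TT1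
  refine ⟨?_, ?_, ?_, ?_⟩
  · unfold csm
    rw [zero_add, zero_add, hD0, hq, Units.val_mul, Units.val_mul, tA_val, tC_val]
    simp only [map_mul, map_sub, map_add, map_one, toLaurent_X]
    linear_combination (-LaurentPolynomial.T (-1) : RO ℤ) * z0 + (LaurentPolynomial.T 1 : RO ℤ) * z1
      - (LaurentPolynomial.T (-1) * LaurentPolynomial.T 1 : RO ℤ) * s01 +
      (LaurentPolynomial.T 1 * toLaurent f - toLaurent f) * tt
  · unfold csm
    rw [c20, c21, c201, Units.val_mul, Units.val_mul, tA_val, tC_val]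
    simp only [map_mul, map_add, toLaurent_X]
    linear_combination z2 - (LaurentPolynomial.T (-1) : RO ℤ) * s02 +
      (LaurentPolynomial.T 1 : RO ℤ) * s12 -
      (LaurentPolynomial.T (-1) * LaurentPolynomial.T 1 : RO ℤ) * s012 -
      (LaurentPolynomial.T 1 * toLaurent r + LaurentPolynomial.T 1 * toLaurent f) * tt
  · unfold csm
    rw [c30, c31, c301, Units.val_mul, Units.val_mul, tA_val, tC_val]
    simp only [map_mul, map_sub, map_add, map_pow, map_one, toLaurent_X]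
    linear_combination z3 - (LaurentPolynomial.T (-1) : RO ℤ) * s03 +
      (LaurentPolynomial.T 1 : RO ℤ) * s13 -
      (LaurentPolynomial.T (-1) * LaurentPolynomial.T 1 : RO ℤ) * s013 +
      (LaurentPolynomial.T 1 ^ 2 * toLaurent r - LaurentPolynomial.T 1 * toLaurent r) * tt
  · unfold csm
    rw [c32, c320, c321, c3201, Units.val_mul, Units.val_mul, tA_val, tC_val]
    simp only [map_mul, map_add, toLaurent_X]
    linear_combination s23 - (LaurentPolynomial.T (-1) : RO ℤ) * s023 +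
      (LaurentPolynomial.T 1 : RO ℤ) * s123 -
      (LaurentPolynomial.T (-1) * LaurentPolynomial.T 1 : RO ℤ) * s0123 +
      (LaurentPolynomial.T 1 * toLaurent r + LaurentPolynomial.T 1 * toLaurent f) * tt

end

/-- (OC_VR, item 5) cycles of length at least five, `psi = z² r`, `r = z r'`: if `V - f - r'` has the
value one at zero then `r = 0` or `r (1+z)² (1-z)` is a unit times it. -/
theorem vr5 (hFD : FDS) (hSm : SmallS) (hRF : RayFacS) (hE1 : E1S) (hE2 : E2S) (hMV : MVS)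
    (hMco : McoS) (hRy : RaySpanS) (hVdd : VddS) (hRay : RayS) {P L : Type} [Fintype P]
    [DecidableEq P] [AddCommGroup L] [Module.Free ℤ L] [Module.Finite ℤ L]
    {phi : L →+ (P → ℤ)} {D : AO ℤ L} {q f E r : ℤ[X]} {a : ℝ} {j : ℕ} {eta : L → (RO ℤ)ˣ}
    {C : Set L} {k : ℕ} {Z : ZMod (k + 3) → L} {mu : ZMod (k + 3) → L →+ ℤ}
    (W : Oc phi D q f E a j eta C k Z mu) (hk : 2 ≤ k)
    (hA : ∀ i, Ar4 D eta Z (toLaurent (X * f)) (toLaurent (X ^ 2 * r)) i) (r' : ℤ[X])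
    (hr : r = X * r') (hc : (E - (1 + X) * f - f - r').coeff 0 = 1) :
    r = 0 ∨ ∃ s n : ℤ, (s = 1 ∨ s = -1) ∧ (toLaurent (r * (1 + X) ^ 2 * (1 - X)) : RO ℤ) =
      LaurentPolynomial.C s * LaurentPolynomial.T n *
        toLaurent (E - (1 + X) * f - f - r') := by
  classical
  by_cases hr0 : r = 0
  · exact Or.inl hr0
  right
  have h := W.cyc
  have hD := W.kb.ko.min.fp.dd
  have hj := W.kb.ko.j2
  have hrk := W.kb.ko.rk
  have h2 : 2 ≤ Module.finrank ℤ L := by omega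
  have n1 : (1 : ZMod (k + 3)) ≠ 0 := KO67.one_nz
  have n2 : (2 : ZMod (k + 3)) ≠ 0 := KO67.two_nz
  have n3 : (3 : ZMod (k + 3)) ≠ 0 := KO.H40.three_ne (by omega)
  have rZ : ∀ i, Ray D (Z i) := fun i => (h.mtl i).r0
  have d01 : ∀ p, phi (Z 0) p = 0 ∨ phi (Z 1) p = 0 :=
    h.dis 0 1 (fun e => n1 (by linear_combination -e))
  have d02 : ∀ p, phi (Z 0) p = 0 ∨ phi (Z 2) p = 0 :=
    h.dis 0 2 (fun e => n2 (by linear_combination -e))
  have d03 : ∀ p, phi (Z 0) p = 0 ∨ phi (Z 3) p = 0 :=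
    h.dis 0 3 (fun e => n3 (by linear_combination -e))
  have d12 : ∀ p, phi (Z 1) p = 0 ∨ phi (Z 2) p = 0 :=
    h.dis 1 2 (fun e => n1 (by linear_combination -e))
  have d13 : ∀ p, phi (Z 1) p = 0 ∨ phi (Z 3) p = 0 :=
    h.dis 1 3 (fun e => n2 (by linear_combination -e))
  have d23 : ∀ p, phi (Z 2) p = 0 ∨ phi (Z 3) p = 0 :=
    h.dis 2 3 (fun e => n1 (by linear_combination -e))
  have hM : Mut D (Z 0) (Z 1) (eta (Z 0)) (eta (Z 1)) := by
    have := h.mtl 0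
    rwa [zero_add] at this
  obtain ⟨-, -, -, ⟨Y⟩⟩ := hMco ℤ P L phi D (Z 0) (Z 1) _ _ hD.inj hD.bin hM
  have q0 : phi (Z 0) Y.i0 = 1 := Y.h0
  have q1 : phi (Z 1) Y.i1 = 1 := by
    have h1 := Y.hk Y.T
    rw [Y.h1, Y.eT] at h1
    exact h1.symm
  obtain ⟨x2, hx2⟩ : ∃ x2 : Ker Y.k1, ((x2 : Ker (co phi Y.i0)) : L) = Z 2 :=
    ⟨⟨⟨Z 2, port_zero d02 q0⟩, by rw [mem_Ker, Y.hk]; exact port_zero d12 q1⟩, rfl⟩
  obtain ⟨x3, hx3⟩ : ∃ x3 : Ker Y.k1, ((x3 : Ker (co phi Y.i0)) : L) = Z 3 :=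
    ⟨⟨⟨Z 3, port_zero d03 q0⟩, by rw [mem_Ker, Y.hk]; exact port_zero d13 q1⟩, rfl⟩
  obtain ⟨hDG, hVG, hfr⟩ : Vdd phi D eta j (Z 0) (Z 1) Y :=
    hVdd P L phi D q f E a j eta C k Z mu (f + X ^ 3 * r) W (Or.inl hk) (by
      rw [coeff_add, W.f0, mul_coeff_zero, coeff_X_pow]
      norm_num) (by
      have s := (hA (-1)).a0.s02
      rw [show (-1 + 2 : ZMod (k + 3)) = 1 by ring] at s
      rw [s, map_add, map_mul, map_mul, map_pow, map_pow, toLaurent_X]
      ring) Y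
  obtain ⟨v0, v2, v3, v32⟩ := csm_vals W (hA 0)
  obtain ⟨V, hV⟩ : ∃ V : ℤ[X], V = E - (1 + X) * f := ⟨_, rfl⟩
  rw [← hV] at v0 hc ⊢
  have hbG := hDG.bin
  have hGc : ∀ x : Ker Y.k1, (dc Y (eta (Z 0) * tA) (eta (Z 1) * tC) D).coeff x =
      csm D (Z 0) (Z 1) (eta (Z 0) * tA) (eta (Z 1) * tC) ((x : Ker (co phi Y.i0)) : L) :=
    fun x => H40.dc_csm hD.bin d01 Y _ _ x
  have hray2 := hRay P L phi D q f E a j eta C k Z mu W (Or.inl hk) 2 n2
    (fun e => n1 (by linear_combination e)) Y (eta (Z 0) * tA) (eta (Z 1) * tC) x2 hx2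
  obtain ⟨lam, l0, l1, l2, l3, lp⟩ := fun_z3 hk h
  have hface := face4 hRy hE2 hD h2 (rZ 0) (rZ 1) (rZ 2) (rZ 3) d01 d02 d03 d12 d13 d23 l0 l1 l2
    l3 lp
  obtain ⟨i2, hi2⟩ := exists_port hD (rZ 2)
  have s2 : phi (Z 2) i2 = 1 := hi2
  have s0 : phi (Z 0) i2 = 0 := (d02 i2).resolve_right (by omega)
  have s1 : phi (Z 1) i2 = 0 := (d12 i2).resolve_right (by omega)
  have s3 : phi (Z 3) i2 = 0 := port_zero d23 s2
  have hco2 : co (psd Y) i2 x2 = 1 := by
    change psd Y x2 i2 = 1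
    rw [psd_apply, if_pos ⟨s0, s1⟩, hx2]
    exact s2
  obtain ⟨y3, hy3⟩ : ∃ y3 : Ker (co (psd Y) i2), (y3 : Ker Y.k1) = x3 := by
    refine ⟨⟨x3, ?_⟩, rfl⟩
    rw [mem_Ker]
    change psd Y x3 i2 = 0
    rw [psd_apply, if_pos ⟨s0, s1⟩, hx3]
    exact s3
  have htri := ray_tri hD.bin d01 Y (eta (Z 0) * tA) (eta (Z 1) * tC) (eta (Z 2) * tA) hbG hx2
    hco2 (y := y3) (X := Z 3) (by rw [hy3, hx3]) (rZ 3).2.1 l0 l1 l2 l3 hface
  obtain ⟨G, hG⟩ : ∃ G, G = dc Y (eta (Z 0) * tA) (eta (Z 1) * tC) D := ⟨_, rfl⟩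
  rw [← hG] at hDG hVG hbG hray2 htri
  simp only [← hG] at hGc
  have hG0 : G.coeff 0 = -toLaurent (X * V) := by
    rw [hGc]
    exact v0
  have hG2 : (eta (Z 2) : RO ℤ) * G.coeff x2 = -toLaurent (X * (r + X * f)) := by
    rw [hGc, hx2]
    exact v2
  have hG3 : (eta (Z 3) : RO ℤ) * G.coeff x3 = toLaurent (X * (f - (1 - X - X ^ 2) * r)) := by
    rw [hGc, hx3]
    exact v3
  have hG32 : (eta (Z 3) : RO ℤ) * ((eta (Z 2) : RO ℤ) * G.coeff (x3 + x2)) =
      toLaurent (X * (r + X * f)) := by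
    have e1 : (((x3 + x2 : Ker Y.k1) : Ker (co phi Y.i0)) : L) = Z 3 + Z 2 := by
      rw [← hx3, ← hx2]
      rfl
    rw [hGc, e1]
    exact v32
  have hVj : V.coeff 0 = j := by
    rw [hV, coeff_sub, W.E0, mul_coeff_zero, W.f0, coeff_add, coeff_one_zero, coeff_X_zero]
    ring
  have hx2ne : G.coeff x2 ≠ 0 := by
    intro h0
    rw [h0, mul_zero] at hG2
    have h3 : X * (r + X * f) = 0 := toLaurent_injective (by
      rw [map_zero]
      linear_combination hG2)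
    have h4 : X * (X * (r' + f)) = 0 := by
      rw [← h3, hr]
      ring
    have h5 : r' = -f := by
      have h6 := (mul_eq_zero.mp ((mul_eq_zero.mp h4).resolve_left X_ne_zero)).resolve_left
        X_ne_zero
      linear_combination h6
    rw [h5, sub_neg_eq_add, sub_add_cancel, hVj] at hc
    have : j = 1 := by exact_mod_cast hc
    omega
  obtain ⟨hr2, hIm⟩ := hray2 hx2ne
  have tt : (LaurentPolynomial.T (-1) : RO ℤ) * LaurentPolynomial.T 1 = 1 := TT1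
  have hF : ((-(eta (Z 2) * tA * tA) : (RO ℤ)ˣ) : RO ℤ) * G.coeff x2 = toLaurent (f + r') := by
    rw [hr] at hG2
    simp only [map_mul, map_add, toLaurent_X] at hG2
    rw [Units.val_neg, Units.val_mul, Units.val_mul, tA_val, map_add]
    linear_combination (-(LaurentPolynomial.T (-1) * LaurentPolynomial.T (-1)) : RO ℤ) * hG2 +
      ((toLaurent f + toLaurent r') * (LaurentPolynomial.T (-1) * LaurentPolynomial.T 1 + 1)) * tt
  have hc' : (V - (f + r')).coeff 0 = 1 := by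
    rw [← hc, sub_sub]
  have hz := v_one hE2 hDG (by omega) hVG hr2 hG0 hF (by
    rw [hVj]
    exact_mod_cast (by omega : j ≠ 0)) hc'
  have hC0 : G.coeff 0 + ((eta (Z 2) * tA : (RO ℤ)ˣ) : RO ℤ) * G.coeff x2 =
      LaurentPolynomial.T 1 * toLaurent (-(V - (f + r'))) := by
    have e1 : ((eta (Z 2) * tA : (RO ℤ)ˣ) : RO ℤ) * G.coeff x2 =
        LaurentPolynomial.T 1 * toLaurent (f + r') := by
      rw [← hF]
      simp only [Units.val_neg, Units.val_mul, tA_val]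
      linear_combination ((eta (Z 2) : RO ℤ) * LaurentPolynomial.T (-1) * G.coeff x2) * tt
    rw [e1, hG0]
    simp only [map_mul, map_neg, map_sub, map_add, toLaurent_X]
    ring
  have hcV : ClassV 1 (G.coeff 0 + ((eta (Z 2) * tA : (RO ℤ)ˣ) : RO ℤ) * G.coeff x2) := by
    refine H66.classV_of (a := 1) (x' := -(V - (f + r'))) le_rfl hC0 ?_ ?_
    · rw [coeff_neg, hc']
      norm_num
    · intro z hz'
      rw [show ((-(V - (f + r'))).map (Int.castRingHom ℂ)).eval z =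
        aeval z (-(V - (f + r'))) from ev_map _ z, map_neg]
      exact neg_ne_zero.mpr (hz z hz')
  have cc : CC (psd Y) G x2 i2 (eta (Z 2) * tA) :=
    ⟨hDG, by omega, hr2, hco2, ((hMV ℤ).1 _ _ hcV).1⟩
  obtain ⟨c, n, H, fd⟩ := hFD ℤ P (Ker Y.k1) (psd Y) G x2 i2 _ hco2 cc
  have hcV' := hcV
  rw [fd.v00] at hcV'
  have hone : ∀ l, ¬ 1 < M ((H l).coeff 0) := by
    intro l
    have h3 : c * ∏ i, (H i).coeff 0 =
        (H l).coeff 0 * (c * ∏ i ∈ Finset.univ.erase l, (H i).coeff 0) := by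
      rw [← Finset.mul_prod_erase Finset.univ (fun i => (H i).coeff 0) (Finset.mem_univ l)]
      ring
    rw [h3] at hcV'
    obtain ⟨N1, N2, hp1, hp2, hNN⟩ := (hE1 ℤ).1 _ _ _ hcV'
    have h4 : M ((H l).coeff 0) = N1 := ((hMV ℤ).1 _ _ hp1).2
    have h5 : 1 ≤ N1 := hp1.1
    have h6 : 1 ≤ N2 := hp2.1
    rw [h4]
    intro h7
    nlinarith
  -- the coefficient of `Z 3`
  have hcl : ∀ x : Ker (co (psd Y) i2), (cl (co (psd Y) i2) x2 hco2 (eta (Z 2) * tA) G).coeff x =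
      G.coeff (x : Ker Y.k1) + ((eta (Z 2) * tA : (RO ℤ)ˣ) : RO ℤ) *
        G.coeff ((x : Ker Y.k1) + x2) :=
    H47.cl_coeff_bin (co (psd Y) i2) x2 hco2 _ G (fun b hb => hbG b hb i2)
  have hy : (eta (Z 3) : RO ℤ) * (cl (co (psd Y) i2) x2 hco2 (eta (Z 2) * tA) G).coeff y3 =
      -toLaurent (r * (1 + X) ^ 2 * (1 - X)) := by
    rw [hcl, hy3, Units.val_mul, tA_val]
    simp only [map_mul, map_sub, map_add, map_pow, map_one, toLaurent_X] at hG3 hG32 ⊢
    linear_combination hG3 - (LaurentPolynomial.T (-1) : RO ℤ) * hG32 -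
      (toLaurent r + LaurentPolynomial.T 1 * toLaurent f) * tt
  have hc0 : (cl (co (psd Y) i2) x2 hco2 (eta (Z 2) * tA) G).coeff 0 =
      LaurentPolynomial.T 1 * toLaurent (-(V - (f + r'))) := by
    rw [hcl, ← hC0, Submodule.coe_zero, zero_add]
  have hyne : (cl (co (psd Y) i2) x2 hco2 (eta (Z 2) * tA) G).coeff y3 ≠ 0 := by
    intro h0
    rw [h0, mul_zero] at hy
    have h3 : r * (1 + X) ^ 2 * (1 - X) = 0 := toLaurent_injective (by
      rw [map_zero]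
      linear_combination hy)
    have h4 : (1 + X : ℤ[X]) ≠ 0 := by
      intro h5
      have h6 := congrArg (fun p : ℤ[X] => p.coeff 0) h5
      simp at h6
    have h5 : (1 - X : ℤ[X]) ≠ 0 := by
      intro h5
      have h6 := congrArg (fun p : ℤ[X] => p.coeff 0) h5
      simp at h6
    exact mul_ne_zero (mul_ne_zero hr0 (pow_ne_zero 2 h4)) h5 h3
  have hry := htri hyne
  obtain ⟨l, hl⟩ := hRF ℤ P (Ker Y.k1) (psd Y) G x2 i2 _ hco2 c n H fd y3 hry
  obtain ⟨-, -, hsp⟩ := hSm ℤ P (Ker Y.k1) (psd Y) G x2 i2 _ hco2 c n H fd l (hone l)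
  obtain ⟨b, p, e, sp⟩ := hsp (O4V.nopure_im hIm fd l)
  have hyb : y3 = b := by
    by_contra hcon
    apply hl
    rw [sp.eq, H75.T2C.cst_mul_coeff, AddMonoidAlgebra.coeff_sub, Finsupp.sub_apply,
      AddMonoidAlgebra.coeff_single, AddMonoidAlgebra.one_def, AddMonoidAlgebra.coeff_single,
      Finsupp.single_eq_of_ne, Finsupp.single_eq_of_ne, sub_zero, mul_zero]
    · exact hcon
    · exact hry.2.1
  have hfin := spt_coeff fd sp
  rw [← hyb, hc0] at hfin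
  rw [hfin] at hy
  obtain ⟨m, s', hs', hsu⟩ := MP_b5021c_nt.Unr.unit_R
    ((-(eta (Z 3) * e⁻¹) : (RO ℤ)ˣ) : RO ℤ) (Units.isUnit _)
  rw [LaurentPolynomial.single_eq_C_mul_T] at hsu
  refine ⟨s', m + 1, hs', ?_⟩
  rw [LaurentPolynomial.T_add]
  have e1 : V - f - r' = V - (f + r') := sub_sub _ _ _
  rw [e1]
  have e2 : (toLaurent (-(V - (f + r'))) : RO ℤ) = -toLaurent (V - (f + r')) := map_neg _ _
  rw [e2] at hy
  rw [Units.val_neg, Units.val_mul] at hsu
  linear_combination hy + (LaurentPolynomial.T 1 * toLaurent (V - (f + r'))) * hsu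

end Pool.Agent.B5.KO.H45
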